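import Pool.Agent.Helper1.TY.Auto

/-!
# The parity of the representation function determines the set
-/

set_option autoImplicit false

namespace Pool.Agent.Helper30.TY

open Finset Pool.Agent.Helper45.TY Pool.Agent.Helper1.TY

/-- The number of representations of an even number `2 n` is odd if and only if `n` belongs to the
set. -/
theorem odd_rep_two_mul {A : Set ℕ} {n : ℕ} : Odd (rep A (2 * n)) ↔ n ∈ A := by
  classical
  let S : Finset (ℕ × ℕ) := (Finset.HasAntidiagonal.antidiagonal (2 * n)).filter
    fun q => q.1 ∈ A ∧ q.2 ∈ A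
  have hS : ∀ q : ℕ × ℕ, q ∈ S ↔ q.1 ∈ A ∧ q.2 ∈ A ∧ q.1 + q.2 = 2 * n := by
    intro q
    rw [Finset.mem_filter, Finset.HasAntidiagonal.mem_antidiagonal]
    tauto
  have hrep : rep A (2 * n) = S.card := by
    unfold rep
    rw [← Set.ncard_coe_finset]
    congr 1
    ext q
    rw [Finset.mem_coe, hS]
    rfl
  have hsplit : S.card = (S.filter fun q => q.1 = q.2).card +
      (S.filter fun q => ¬ q.1 = q.2).card := (Finset.card_filter_add_card_filter_not _).symm
  have heven : Even (S.filter fun q => ¬ q.1 = q.2).card := by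
    have h0 : (((S.filter fun q => ¬ q.1 = q.2).card : ℕ) : ZMod 2) = 0 := by
      rw [Finset.card_eq_sum_ones, Nat.cast_sum]
      refine Finset.sum_involution (fun q _ => (q.2, q.1)) ?_ ?_ ?_ ?_
      · intro q _
        decide
      · intro q hq _ h
        rw [Finset.mem_filter] at hq
        have h1 := congrArg Prod.fst h
        exact hq.2 h1.symm
      · intro q hq
        rw [Finset.mem_filter, hS] at hq ⊢
        exact ⟨⟨hq.1.2.1, hq.1.1, by simp only; omega⟩, fun h => hq.2 h.symm⟩
      · intro q _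
        rfl
    exact (ZMod.natCast_eq_zero_iff_even).1 h0
  have hdiag : (S.filter fun q => q.1 = q.2) = if n ∈ A then {(n, n)} else ∅ := by
    ext q
    rw [Finset.mem_filter, hS]
    constructor
    · rintro ⟨⟨h1, h2, h3⟩, h4⟩
      have h5 : q.1 = n := by omega
      have h6 : q.2 = n := by omega
      rw [h5] at h1
      rw [if_pos h1, Finset.mem_singleton]
      exact Prod.ext h5 h6
    · intro h
      by_cases hn : n ∈ A
      · rw [if_pos hn, Finset.mem_singleton] at h
        subst h
        exact ⟨⟨hn, hn, by simp only; omega⟩, rfl⟩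
      · rw [if_neg hn] at h
        exact absurd h (Finset.notMem_empty _)
  rw [hrep, hsplit, hdiag]
  by_cases hn : n ∈ A
  · rw [if_pos hn, Finset.card_singleton]
    exact ⟨fun _ => hn, fun _ => heven.one_add⟩
  · rw [if_neg hn, Finset.card_empty, zero_add]
    exact ⟨fun h => absurd heven (Nat.not_even_iff_odd.2 h), fun h => absurd h hn⟩

/-- A set has at most twice as many sections as the set of the numbers with an odd number of
representations. -/
theorem resSec_le_odd (A : Set ℕ) (M : ℕ) :
    (resSec A M).encard ≤ 2 * (resSec {n | Odd (rep A n)} M).encard := by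
  set B : Set ℕ := {n | Odd (rep A n)} with hB
  have hsub : resSec A M ⊆ (fun T : Set ℕ => {n | 2 * n ∈ T}) '' resSec B M ∪
      (fun T : Set ℕ => {n | 2 * n + 1 ∈ T}) '' resSec B M := by
    rintro T ⟨r, hr, rfl⟩
    rcases Nat.lt_or_ge (2 * r) M with h | h
    · refine Or.inl ⟨_, ⟨2 * r, h, rfl⟩, ?_⟩
      ext n
      show Odd (rep A (M * (2 * n) + 2 * r)) ↔ M * n + r ∈ A
      rw [← odd_rep_two_mul, show 2 * (M * n + r) = M * (2 * n) + 2 * r by ring]
    · refine Or.inr ⟨_, ⟨2 * r - M, by omega, rfl⟩, ?_⟩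
      ext n
      show Odd (rep A (M * (2 * n + 1) + (2 * r - M))) ↔ M * n + r ∈ A
      rw [← odd_rep_two_mul, show 2 * (M * n + r) = M * (2 * n + 1) + (2 * r - M) by
        have : M * (2 * n + 1) = 2 * (M * n) + M := by ring
        omega]
  calc (resSec A M).encard ≤ _ := Set.encard_le_encard hsub
    _ ≤ _ := Set.encard_union_le _ _
    _ ≤ (resSec B M).encard + (resSec B M).encard :=
        add_le_add (Set.encard_image_le _ _) (Set.encard_image_le _ _)
    _ = 2 * (resSec B M).encard := (two_mul _).symm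

/-- Representation functions whose parity has few sections. -/
theorem few_parity_sections (q : ℕ) (hq : 2 ≤ q) (δ : ℝ) (hδ : 0 < δ) : ∃ c : ℝ, 0 < c ∧
    ∀ s : ℕ, 1 ≤ s → ∀ A : Set ℕ, (∀ j, (resSec {n | Odd (rep A n)} (q ^ j)).encard ≤ s) →
    ∀ x : ℕ, q ≤ x → (x : ℝ) ^ δ ≤ num A x →
    ∃ N < 2 * q * x, (x : ℝ) ^ (c / Real.log (2 * s)) ≤ rep A N := by
  obtain ⟨c, hc, h⟩ := bounded_sections q hq δ hδ
  refine ⟨c, hc, fun s hs A hA x hx hnum => ?_⟩
  have h1 := h (2 * s) (by omega) A (fun j => by
    refine (resSec_le_odd A (q ^ j)).trans ?_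
    push_cast
    exact mul_le_mul_right (hA j) 2) x hx hnum
  push_cast at h1
  exact h1

/-- **The representation function of a set with many elements is not automatic.** If the set of the
numbers with an odd number of representations is `q`-automatic, then some number has a power of
`x` representations. -/
theorem parity_automatic (q : ℕ) (hq : 2 ≤ q) (A : Set ℕ)
    (hA : (digitLanguage q {n | Odd (rep A n)}).IsRegular) (δ : ℝ) (hδ : 0 < δ) :
    ∃ c : ℝ, 0 < c ∧ ∀ x : ℕ, q ≤ x → (x : ℝ) ^ δ ≤ num A x →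
    ∃ N < 2 * q * x, (x : ℝ) ^ c ≤ rep A N := by
  obtain ⟨s, hs, h⟩ := resSec_of_regular hq hA
  obtain ⟨c, hc, hmain⟩ := few_parity_sections q hq δ hδ
  have hs2 : (2 : ℝ) ≤ s := by exact_mod_cast hs
  have hlogs : 0 < Real.log (2 * s) := Real.log_pos (by linarith)
  exact ⟨c / Real.log (2 * s), by positivity, fun x hx hnum => hmain s (by omega) A h x hx hnum⟩

end Pool.Agent.Helper30.TY
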