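import Pool.Agent.Helper30.TY.Parity
import Pool.Agent.Helper45.TY.Result

/-!
# Machines which decide the parity of a representation function
-/

set_option autoImplicit false

namespace Pool.Agent.Helper30.TY

open Finset Pool.Agent.Helper45.TY Pool.Agent.Helper1.TY

/-- The number of representations of an odd number is even. -/
theorem even_rep_odd {A : Set ℕ} {m : ℕ} (hm : ¬ Even m) : Even (rep A m) := by
  classical
  let S : Finset (ℕ × ℕ) := (Finset.HasAntidiagonal.antidiagonal m).filter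
    fun q => q.1 ∈ A ∧ q.2 ∈ A
  have hS : ∀ q : ℕ × ℕ, q ∈ S ↔ q.1 ∈ A ∧ q.2 ∈ A ∧ q.1 + q.2 = m := by
    intro q
    rw [Finset.mem_filter, Finset.HasAntidiagonal.mem_antidiagonal]
    tauto
  have hrep : rep A m = S.card := by
    unfold rep
    rw [← Set.ncard_coe_finset]
    congr 1
    ext q
    rw [Finset.mem_coe, hS]
    rfl
  rw [hrep]
  have h0 : ((S.card : ℕ) : ZMod 2) = 0 := by
    rw [Finset.card_eq_sum_ones, Nat.cast_sum]
    refine Finset.sum_involution (fun q _ => (q.2, q.1)) ?_ ?_ ?_ ?_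
    · intro q _
      decide
    · intro q hq _ h
      rw [hS] at hq
      have h1 : q.2 = q.1 := congrArg Prod.fst h
      exact hm ⟨q.1, by omega⟩
    · intro q hq
      rw [hS] at hq ⊢
      exact ⟨hq.2.1, hq.1, by simp only; omega⟩
    · intro q _
      rfl
  exact (ZMod.natCast_eq_zero_iff_even).1 h0

/-- The numbers with an odd number of representations are the doubles of the elements. -/
theorem odd_rep_iff {A : Set ℕ} {m : ℕ} : Odd (rep A m) ↔ ∃ a ∈ A, m = 2 * a := by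
  rcases Nat.even_or_odd m with ⟨a, ha⟩ | h
  · have ha' : m = 2 * a := by omega
    rw [ha', odd_rep_two_mul]
    constructor
    · exact fun h => ⟨a, h, rfl⟩
    · rintro ⟨b, hb, h⟩
      have : a = b := by omega
      rwa [this]
  · constructor
    · intro h'
      exact absurd (even_rep_odd (Nat.not_even_iff_odd.2 h)) (Nat.not_even_iff_odd.2 h')
    · rintro ⟨b, _, rfl⟩
      exact absurd h (by simp)

/-- The representations by numbers with an odd number of representations. -/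
theorem exists_of_rep_odd {A : Set ℕ} {N : ℕ} (h : 0 < rep {m | Odd (rep A m)} N) :
    ∃ N', N = 2 * N' ∧ rep {m | Odd (rep A m)} N = rep A N' := by
  obtain ⟨q, h1, h2, h3⟩ : {q : ℕ × ℕ | q.1 ∈ {m | Odd (rep A m)} ∧ q.2 ∈ {m | Odd (rep A m)} ∧
      q.1 + q.2 = N}.Nonempty := Set.nonempty_of_ncard_ne_zero h.ne'
  obtain ⟨a, ha, hqa⟩ := odd_rep_iff.1 h1
  obtain ⟨b, hb, hqb⟩ := odd_rep_iff.1 h2
  refine ⟨a + b, by omega, ?_⟩
  have hN : N = 2 * (a + b) := by omega
  have e : {q : ℕ × ℕ | q.1 ∈ {m | Odd (rep A m)} ∧ q.2 ∈ {m | Odd (rep A m)} ∧ q.1 + q.2 = N} =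
      (fun q : ℕ × ℕ => (2 * q.1, 2 * q.2)) '' {q : ℕ × ℕ | q.1 ∈ A ∧ q.2 ∈ A ∧
        q.1 + q.2 = a + b} := by
    ext p
    constructor
    · rintro ⟨h4, h5, h6⟩
      obtain ⟨c, hc, hpc⟩ := odd_rep_iff.1 h4
      obtain ⟨d, hd, hpd⟩ := odd_rep_iff.1 h5
      exact ⟨(c, d), ⟨hc, hd, by simp only; omega⟩, Prod.ext hpc.symm hpd.symm⟩
    · rintro ⟨⟨c, d⟩, ⟨hc, hd, h4⟩, rfl⟩
      simp only at hc hd h4
      exact ⟨odd_rep_iff.2 ⟨c, hc, rfl⟩, odd_rep_iff.2 ⟨d, hd, rfl⟩, by simp only; omega⟩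
  show Set.ncard {q : ℕ × ℕ | q.1 ∈ {m | Odd (rep A m)} ∧ q.2 ∈ {m | Odd (rep A m)} ∧
    q.1 + q.2 = N} = Set.ncard {q : ℕ × ℕ | q.1 ∈ A ∧ q.2 ∈ A ∧ q.1 + q.2 = a + b}
  rw [e]
  refine Set.ncard_image_of_injective _ ?_
  rintro ⟨c, d⟩ ⟨c', d'⟩ h4
  simp only [Prod.mk.injEq] at h4
  exact Prod.ext (by simp only; omega) (by simp only; omega)

/-- **The parity of the representation function.** If a one-tape machine accepts only words of
numbers with an odd number of representations, and at least `q ^ (d n)` of them in time `T`, then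
some number has many representations. -/
theorem machine_parity (q : ℕ) (hq : 2 ≤ q) (d : ℝ) (hd : 0 < d) : ∃ c : ℝ, 0 < c ∧
    ∀ (Q Γ : Type) [Fintype Q] (M : Machine Q Γ) (n T : ℕ) (enc : ℤ → Option (Fin q) → Γ)
      (π : Equiv.Perm (Fin n)) (A : Set ℕ), 1 ≤ n → n ≤ T →
      (∀ w, M.Accepts (M.init enc w) → Odd (rep A (Pool.Agent.Helper45.TY.val (digitVal π) w))) →
      (q : ℝ) ^ (d * n) ≤ {w : Fin n → Fin q | M.AcceptsIn T (M.init enc w)}.ncard →
      ∃ N < q ^ n, Real.exp (c * n ^ 2 / (T * Real.log (Fintype.card Q + 1))) ≤ rep A N := by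
  obtain ⟨c, hc, h⟩ := machine_base q hq d hd
  refine ⟨c, hc, ?_⟩
  intro Q Γ _ M n T enc π A hn hT hA hcard
  obtain ⟨N, hN, hr⟩ := h Q Γ M n T enc π {m | Odd (rep A m)} hn hT hA hcard
  have hpos : 0 < rep {m | Odd (rep A m)} N := by
    have : (0 : ℝ) < rep {m | Odd (rep A m)} N := (Real.exp_pos _).trans_le hr
    exact_mod_cast this
  obtain ⟨N', h1, h2⟩ := exists_of_rep_odd hpos
  exact ⟨N', by omega, by rwa [h2] at hr⟩

end Pool.Agent.Helper30.TY
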